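import Pool.Agent.Work.MP_25cd3b_gt.Mx.Defs
import Pool.Agent.Work.MP_25cd3b_gt.M.Defs

set_option autoImplicit false
set_option synthInstance.maxHeartbeats 400000

/-!
# The notions of Mx/Defs.lean are the notions of M/Defs.lean
-/

open MeasureTheory Set Filter Topology
open scoped ContDiff

namespace Pool.Agent.Mx

variable {n : ℕ}

/-- coordinates of the forms -/
noncomputable def Bij (i j : Fin n) : E n →L[ℝ] E n →L[ℝ] ℝ :=
  (EuclideanSpace.proj i : E n →L[ℝ] ℝ).smulRight (EuclideanSpace.proj j : E n →L[ℝ] ℝ)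

theorem Bij_apply (i j : Fin n) (v w : E n) : Bij i j v w = v i * w j := by
  simp [Bij]

/-- the field of forms of a metric -/
noncomputable def frm (g : E n → Matrix (Fin n) (Fin n) ℝ) (hg : Met g) : MLS.Form n where
  val := fun x => ∑ i, ∑ j, g x i j • Bij i j
  smooth := by
    rw [contDiff_clm_apply_iff]
    intro u
    rw [contDiff_clm_apply_iff]
    intro v
    simp only [_root_.sum_apply, _root_.smul_apply, Bij_apply, smul_eq_mul]
    exact ContDiff.sum fun i _ => ContDiff.sum fun j _ => (hg.smooth i j).mul contDiff_const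
  symm := fun x u v => by
    simp only [_root_.sum_apply, _root_.smul_apply, Bij_apply,
      smul_eq_mul]
    rw [Finset.sum_comm]
    refine Finset.sum_congr rfl fun i _ => Finset.sum_congr rfl fun j _ => ?_
    rw [hg.symm x j i]
    ring
  nonneg := fun x v => by
    simp only [_root_.sum_apply, _root_.smul_apply, Bij_apply,
      smul_eq_mul]
    by_cases hv : v = 0
    · subst hv
      simp
    · exact (hg.pos x v hv).le

theorem frm_val (g : E n → Matrix (Fin n) (Fin n) ℝ) (hg : Met g) (x u v : E n) :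
    (frm g hg).val x u v = qf (g x) u v := by
  simp only [frm, _root_.sum_apply, _root_.smul_apply, Bij_apply,
    smul_eq_mul, qf]

theorem frm_riem (g : E n → Matrix (Fin n) (Fin n) ℝ) (hg : Met g) : MLS.Riem (frm g hg) :=
  fun x v hv => by rw [frm_val]; exact hg.pos x v hv

theorem frm_nrm (g : E n → Matrix (Fin n) (Fin n) ℝ) (hg : Met g) (x v : E n) :
    MLS.nrm (frm g hg) x v = len g x v := by rw [MLS.nrm, frm_val, len]

theorem path_iff (g : E n → Matrix (Fin n) (Fin n) ℝ) (hg : Met g) (x y : E n) (l : ℝ) :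
    MLS.PathLen (frm g hg) x y l ↔ Path g x y l := by
  constructor
  · intro h
    induction h with
    | refl x => exact Path.refl x
    | cons c a b y l hc hab _ ih =>
      simp only [frm_nrm]
      exact Path.cons c a b y l hc hab ih
  · intro h
    induction h with
    | refl x => exact MLS.PathLen.refl x
    | cons c a b y l hc hab _ ih =>
      simp only [← frm_nrm g hg]
      exact MLS.PathLen.cons c a b y l hc hab ih

theorem gd_eq (g : E n → Matrix (Fin n) (Fin n) ℝ) (hg : Met g) (x y : E n) :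
    MLS.gd (frm g hg) x y = gd g x y := by
  simp only [MLS.gd, gd, path_iff]

theorem gd_eq' (g : E n → Matrix (Fin n) (Fin n) ℝ) (hg : Met g) :
    MLS.gd (frm g hg) = gd g := by
  funext x y
  exact gd_eq g hg x y

theorem coc (G : Type) [Group G] [MulAction G (E n)] (h : Cocompact n G) :
    MLS.Cocompact n G := ⟨h.smooth, h.free, h.proper, h.cocompact⟩

theorem dac_eq {G : Type} [Group G] [MulAction G (E n)] (a : G) (x v : E n) :
    MLS.dac a x v = dac a x v := rfl

theorem inv_iff (G : Type) [Group G] [MulAction G (E n)]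
    (g : E n → Matrix (Fin n) (Fin n) ℝ) (hg : Met g) :
    MLS.Inv G (frm g hg) ↔ Inv G g := by
  simp only [MLS.Inv, Inv, frm_val, dac_eq]

theorem L_eq {G : Type} [Group G] [MulAction G (E n)]
    (g : E n → Matrix (Fin n) (Fin n) ℝ) (hg : Met g) (a : G) :
    MLS.L (frm g hg) a = L g a := by
  simp only [MLS.L, L, path_iff]

/-- derivative of the form and of the values -/
theorem fderiv_val (F : MLS.Form n) (x w u v : E n) :
    fderiv ℝ F.val x w u v = fderiv ℝ (fun y => F.val y u v) x w := by
  have h1 : DifferentiableAt ℝ F.val x := F.smooth.differentiable (by simp) x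
  have h3 : HasFDerivAt (fun y => F.val y u) ((fderiv ℝ F.val x).flip u) x := by
    simpa using h1.hasFDerivAt.clm_apply (hasFDerivAt_const u x)
  have h4 : HasFDerivAt (fun y => F.val y u v) (((fderiv ℝ F.val x).flip u).flip v) x := by
    simpa using h3.clm_apply (hasFDerivAt_const v x)
  rw [h4.fderiv]
  rfl

theorem geo_iff (g : E n → Matrix (Fin n) (Fin n) ℝ) (hg : Met g) (c : ℝ → E n) :
    MLS.IsGeo (frm g hg) c ↔ IsGeo g c := by
  constructor
  · intro h
    refine ⟨h.smooth, fun t w => ?_⟩
    have h1 := h.el t w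
    rw [fderiv_val] at h1
    simpa only [frm_val] using h1
  · intro h
    refine ⟨h.smooth, fun t w => ?_⟩
    have h1 := h.el t w
    rw [fderiv_val]
    simpa only [frm_val] using h1

theorem minz_iff (g : E n → Matrix (Fin n) (Fin n) ℝ) (hg : Met g) :
    MLS.Minz (frm g hg) ↔ Minz g := by
  simp only [MLS.Minz, Minz, geo_iff, frm_val, gd_eq]

theorem hyp_iff (g : E n → Matrix (Fin n) (Fin n) ℝ) (hg : Met g) :
    MLS.HypG (frm g hg) ↔ HypG g := by
  simp only [MLS.HypG, HypG, gd_eq']
  rfl

theorem gm_eq (g : E n → Matrix (Fin n) (Fin n) ℝ) (hg : Met g) (x : E n) :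
    MLS.gm (frm g hg) x = g x := by
  ext i j
  simp only [MLS.gm, Matrix.of_apply, frm_val, qf, MLS.ee]
  rw [Finset.sum_eq_single i, Finset.sum_eq_single j]
  · simp
  · intro b _ hb
    simp [hb]
  · simp
  · intro b _ hb
    simp [hb]
  · simp

theorem dens_eq (g : E n → Matrix (Fin n) (Fin n) ℝ) (hg : Met g) (x : E n) :
    MLS.dens (frm g hg) x = dens g x := by rw [MLS.dens, gm_eq, dens]

theorem tr_eq (g1 g2 : E n → Matrix (Fin n) (Fin n) ℝ) (h1 : Met g1) (h2 : Met g2) (x : E n) :
    MLS.tr (frm g1 h1) (frm g2 h2) x = tr g1 g2 x := by rw [MLS.tr, gm_eq, gm_eq, tr]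

theorem qf_add_left (A : Matrix (Fin n) (Fin n) ℝ) (u v w : E n) :
    qf A (u + v) w = qf A u w + qf A v w := by
  simp only [qf, PiLp.add_apply, add_mul, mul_add, Finset.sum_add_distrib]

theorem qf_add_right (A : Matrix (Fin n) (Fin n) ℝ) (u v w : E n) :
    qf A u (v + w) = qf A u v + qf A u w := by
  simp only [qf, PiLp.add_apply, mul_add, Finset.sum_add_distrib]

theorem qf_smul_left (A : Matrix (Fin n) (Fin n) ℝ) (r : ℝ) (v w : E n) :
    qf A (r • v) w = r * qf A v w := by
  simp only [qf, PiLp.smul_apply, smul_eq_mul, Finset.mul_sum]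
  exact Finset.sum_congr rfl fun i _ => Finset.sum_congr rfl fun j _ => by ring

theorem qf_smul_right (A : Matrix (Fin n) (Fin n) ℝ) (r : ℝ) (v w : E n) :
    qf A v (r • w) = r * qf A v w := by
  simp only [qf, PiLp.smul_apply, smul_eq_mul, Finset.mul_sum]
  exact Finset.sum_congr rfl fun i _ => Finset.sum_congr rfl fun j _ => by ring

theorem val_eq_sum (F : MLS.Form n) (x u v : E n) :
    F.val x u v = qf (MLS.gm F x) u v := by
  have h1 : ∀ w : E n, w = ∑ i, w i • EuclideanSpace.single i (1 : ℝ) := by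
    intro w
    ext k
    simp [Pi.single_apply]
  conv_lhs => rw [h1 u, h1 v]
  simp only [map_sum, map_smul, _root_.sum_apply, _root_.smul_apply,
    smul_eq_mul, qf, MLS.gm, Matrix.of_apply, MLS.ee, Finset.mul_sum]
  rw [Finset.sum_comm]
  refine Finset.sum_congr rfl fun i _ => ?_
  refine Finset.sum_congr rfl fun j _ => ?_
  ring

/-- a form is determined by its matrix -/
theorem form_ext {F F' : MLS.Form n} (h : ∀ x, MLS.gm F x = MLS.gm F' x) : F = F' := by
  apply MLS.Form.ext
  funext x
  ext u v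
  rw [val_eq_sum, val_eq_sum, h]

/-- a nonnegative field of forms which is smooth gives a metric as soon as it is positive -/
theorem met_gm (F : MLS.Form n) (h : MLS.Riem F) : Met (MLS.gm F) where
  smooth := fun i j => by
    have h1 : ContDiff ℝ ∞ (fun x => F.val x (MLS.ee i) (MLS.ee j)) :=
      (F.smooth.clm_apply contDiff_const).clm_apply contDiff_const
    exact h1
  symm := fun x i j => F.symm x _ _
  pos := fun x v hv => by rw [← val_eq_sum]; exact h x v hv

theorem frm_gm (F : MLS.Form n) (h : MLS.Riem F) : frm (MLS.gm F) (met_gm F h) = F :=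
  form_ext fun x => gm_eq _ _ x

/-- pull-backs -/
theorem gm_pull (F : E n → E n) (hF : ContDiff ℝ ∞ F) (g : E n → Matrix (Fin n) (Fin n) ℝ)
    (hg : Met g) (x : E n) : MLS.gm (MLS.pull F hF (frm g hg)) x = pull F g x := by
  ext i j
  simp only [MLS.gm, pull, Matrix.of_apply, MLS.pull, MLS.ee]
  rw [← frm_val g hg]
  rfl

theorem tr_pull (F : E n → E n) (hF : ContDiff ℝ ∞ F) (g1 g2 : E n → Matrix (Fin n) (Fin n) ℝ)
    (h1 : Met g1) (h2 : Met g2) (x : E n) :
    MLS.tr (frm g1 h1) (MLS.pull F hF (frm g2 h2)) x = tr g1 (pull F g2) x := by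
  rw [MLS.tr, gm_eq, gm_pull, tr]

theorem eq_pull_iff (F : E n → E n) (hF : ContDiff ℝ ∞ F)
    (g1 g2 : E n → Matrix (Fin n) (Fin n) ℝ) (h1 : Met g1) (h2 : Met g2) :
    frm g1 h1 = MLS.pull F hF (frm g2 h2) ↔ g1 = pull F g2 := by
  constructor
  · intro h
    funext x
    rw [← gm_eq g1 h1 x, h, gm_pull]
  · intro h
    apply form_ext
    intro x
    rw [gm_eq, gm_pull, ← h]

end Pool.Agent.Mx
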