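import Mathlib

set_option autoImplicit false

/-!
# Riemannian metrics on closed manifolds with universal covering `R^n`, in coordinates

A closed manifold with universal covering `R^n` is `R^n / G`, where `G` acts on `R^n` by
diffeomorphisms, freely, properly discontinuously and with compact quotient.  A metric of the
manifold is a `G`-invariant metric of `R^n`, given by its symmetric positive definite matrix.
-/

open MeasureTheory Set Filter Topology
open scoped ContDiff

namespace Pool.Agent.Mx

/-- points and vectors -/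
abbrev E (n : ℕ) := EuclideanSpace ℝ (Fin n)

/-- bilinear form of a matrix -/
noncomputable def qf {n : ℕ} (A : Matrix (Fin n) (Fin n) ℝ) (v w : E n) : ℝ :=
  ∑ i, ∑ j, A i j * (v i * w j)

/-- the matrix valued function `g` is a smooth Riemannian metric of `R^n` -/
structure Met {n : ℕ} (g : E n → Matrix (Fin n) (Fin n) ℝ) : Prop where
  smooth : ∀ i j, ContDiff ℝ ∞ (fun x => g x i j)
  symm : ∀ x i j, g x i j = g x j i
  pos : ∀ x v, v ≠ 0 → 0 < qf (g x) v v

/-- length of the tangent vector `v` at `x` -/
noncomputable def len {n : ℕ} (g : E n → Matrix (Fin n) (Fin n) ℝ) (x v : E n) : ℝ :=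
  Real.sqrt (qf (g x) v v)

/-- `Path g x y l`: some piecewise `C^1` curve from `x` to `y` has length `l` -/
inductive Path {n : ℕ} (g : E n → Matrix (Fin n) (Fin n) ℝ) : E n → E n → ℝ → Prop
  | refl (x : E n) : Path g x x 0
  | cons (c : ℝ → E n) (a b : ℝ) (y : E n) (l : ℝ) (hc : ContDiff ℝ 1 c) (hab : a ≤ b)
      (h : Path g (c b) y l) :
      Path g (c a) y ((∫ t in a..b, len g (c t) (deriv c t)) + l)

/-- distance of the metric -/
noncomputable def gd {n : ℕ} (g : E n → Matrix (Fin n) (Fin n) ℝ) (x y : E n) : ℝ :=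
  sInf {l | Path g x y l}

/-- the group acts smoothly, freely, properly discontinuously and cocompactly on `R^n` -/
structure Cocompact (n : ℕ) (G : Type) [Group G] [MulAction G (E n)] : Prop where
  smooth : ∀ a : G, ContDiff ℝ ∞ (fun x : E n => a • x)
  free : ∀ (a : G) (x : E n), a • x = x → a = 1
  proper : ∀ K : Set (E n), IsCompact K →
    {a : G | ((fun x : E n => a • x) '' K ∩ K).Nonempty}.Finite
  cocompact : ∃ K : Set (E n), IsCompact K ∧ ∀ x : E n, ∃ a : G, a • x ∈ K

/-- derivative of the action of `a` at `x` in the direction `v` -/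
noncomputable def dac {n : ℕ} {G : Type} [Group G] [MulAction G (E n)] (a : G) (x v : E n) :
    E n := fderiv ℝ (fun y : E n => a • y) x v

/-- the metric is invariant under the group -/
def Inv {n : ℕ} (G : Type) [Group G] [MulAction G (E n)]
    (g : E n → Matrix (Fin n) (Fin n) ℝ) : Prop :=
  ∀ (a : G) (x u v : E n), qf (g (a • x)) (dac a x u) (dac a x v) = qf (g x) u v

/-- marked length spectrum: infimum of the lengths of the curves from `x` to `a x`, that is of the
closed curves of the quotient in the free homotopy class of `a` -/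
noncomputable def L {n : ℕ} {G : Type} [Group G] [MulAction G (E n)]
    (g : E n → Matrix (Fin n) (Fin n) ℝ) (a : G) : ℝ :=
  sInf {l | ∃ x : E n, Path g x (a • x) l}

/-- geodesics (Euler-Lagrange equations of the energy) -/
structure IsGeo {n : ℕ} (g : E n → Matrix (Fin n) (Fin n) ℝ) (c : ℝ → E n) : Prop where
  smooth : ContDiff ℝ 2 c
  el : ∀ t w, HasDerivAt (fun s => qf (g (c s)) (deriv c s) w)
    (1 / 2 * fderiv ℝ (fun y => qf (g y) (deriv c t) (deriv c t)) (c t) w) t

/-- every unit speed geodesic of the universal covering is minimizing (for metrics of closed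
manifolds this is equivalent to the absence of conjugate points) -/
def Minz {n : ℕ} (g : E n → Matrix (Fin n) (Fin n) ℝ) : Prop :=
  ∀ c : ℝ → E n, IsGeo g c → (∀ t, qf (g (c t)) (deriv c t) (deriv c t) = 1) →
    ∀ s t, gd g (c s) (c t) = |s - t|

/-- the four point condition of Gromov -/
def Hyp4 {X : Type} (d : X → X → ℝ) (δ : ℝ) : Prop :=
  ∀ x y z w, d x y + d z w ≤ max (d x z + d y w) (d x w + d y z) + δ

/-- the universal covering is Gromov hyperbolic -/
def HypG {n : ℕ} (g : E n → Matrix (Fin n) (Fin n) ℝ) : Prop := ∃ δ, Hyp4 (gd g) δ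

/-- volume density -/
noncomputable def dens {n : ℕ} (g : E n → Matrix (Fin n) (Fin n) ℝ) (x : E n) : ℝ :=
  Real.sqrt (g x).det

/-- trace of `g2` with respect to `g1` -/
noncomputable def tr {n : ℕ} (g1 g2 : E n → Matrix (Fin n) (Fin n) ℝ) (x : E n) : ℝ :=
  ((g1 x)⁻¹ * g2 x).trace

/-- pull-back under a map -/
noncomputable def pull {n : ℕ} (F : E n → E n) (g : E n → Matrix (Fin n) (Fin n) ℝ) (x : E n) :
    Matrix (Fin n) (Fin n) ℝ :=
  Matrix.of fun i j => qf (g (F x)) (fderiv ℝ F x (EuclideanSpace.single i 1))
    (fderiv ℝ F x (EuclideanSpace.single j 1))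

end Pool.Agent.Mx
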